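import Pool.Agent.H80.N2

/-!
# Products of two normal Engel subgroups whose mutual commutator is locally nilpotent

Problem MP_a45045_al (Q1).
-/

namespace Pool.Agent.Results.MP_a45045_al.LocNilpCommutator

/-- **Result.** Let `G = HK` with `H` and `K` normal subgroups that are nilgroups (Engel groups),
and suppose that every finitely generated subgroup of `[H,K]` is nilpotent. Then `G` is a
nilgroup. -/
theorem result {G : Type*} [Group G] (H K : Subgroup G) (hH : H.Normal) (hK : K.Normal)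
    (hHK : H ⊔ K = ⊤)
    (eH : ∀ x ∈ H, ∀ y ∈ H, ∃ n : ℕ, (fun a : G => a⁻¹ * y⁻¹ * a * y)^[n] x = 1)
    (eK : ∀ x ∈ K, ∀ y ∈ K, ∃ n : ℕ, (fun a : G => a⁻¹ * y⁻¹ * a * y)^[n] x = 1)
    (hloc : ∀ M : Subgroup G, M ≤ ⁅H, K⁆ → M.FG → Group.IsNilpotent M) :
    ∀ x y : G, ∃ n : ℕ, (fun a : G => a⁻¹ * y⁻¹ * a * y)^[n] x = 1 :=
  Pool.Agent.H80.N2.main H K hH hK hHK eH eK hloc

end Pool.Agent.Results.MP_a45045_al.LocNilpCommutator
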